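import Pool.Agent.Run7.h328.SEP.Taub

/-!
# The Tauberian Tate conjecture for products of arbitrary powers of almost all curves and a fixed variety, with square-root error

Let `K` be a number field of degree `d`, let `g_1, ..., g_n ≥ 1` and let `C_l` be the smooth projective curve
`y² = x^(2 g_l + 1) + ∑ (α_(l,i) + m_(l,i)) x^i` of genus `g_l`, where `α_(l,i) ∈ 𝓞_K` are given and `m_(l,i)` are integers.  For
exponents `r_l ≥ 0` and a smooth projective variety `Y` over `K` let `V = ∏ C_l^(r_l) × Y`.  By Künneth's formula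

`b_v(V) - b_v(Y) = (∑ r_l) q_v + ∑ (r_l choose 2) t_(l,v)² + ∑_{l < l'} r_l r_(l') t_(l,v) t_(l',v) + ∑ r_l t_(l,v) y_v`,

with the traces `t_(l,v)`, `y_v` of the Frobenius on `H¹(C_l)`, `H¹(Y)`; `|y_v| ≤ b_1(Y) q_v^(1/2)` at the good primes.
If the Jacobians of the `C_l` have no endomorphisms but the integers and there are no homomorphisms between them and to the
Albanese variety of `Y`, then `rank NS(V) - rank NS(Y) = ∑ (r_l + (r_l choose 2))` over `K`; this is the case for almost all `m`.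

We show: for `H` large in terms of `ε`, `d` and the `g_l`, every `K` and `α`, all but a proportion `H ^ (-ε/500)` of the vectors
`m` in the box `[-H, H] ^ (∑ (2 g_l + 1))` have the property

`|∑ w(v) q_v^(-iτ) ((b_v(V) - b_v(Y)) / q_v - ∑ (r_l + (r_l choose 2))) log q_v| ≤ C R (R + B) (T ^ (1/2 + 2ε) + (log H) ^ (5/ε))`,

`R = ∑ r_l`, the sum over the primes `v` with `q_v ≤ T` at which all curves have good reduction, for all exponents `r_l`, all
`T ≤ H ^ (ε/200)`, all `|τ| ≤ H ^ (ε/200)`, all `w` in a set `W` of complex weights of absolute value at most `1` (for instance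
Artin characters: base change) and all `Y` in a set `𝒴` of varieties (given by their functions `y`, `|y_v| ≤ B q_v^(1/2)`), where
`|W| (|𝒴| + 1) ≤ H ^ (ε/500)`, at the same time.  So the average of the question for `V` minus the one for `Y` is the difference of the
ranks up to the error `T ^ (-1/2 + 2ε)`, from a power of `log H` to a power of `H`: the Tauberian Tate conjecture for `Y` carries over to `V`.

Proof.  At the primes of degree one, i.e. at the homomorphisms `φ : 𝓞_K → F_p`, the means over all `m` modulo `p` of the products of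
the normalised traces are those of `∏ USp(2 g_l)` up to `O(1/p)` (starting library `Y57.FD`, `V11210.G2` for one curve).  The
residues of `m` modulo the square-free numbers up to a power of `H` are uniformly distributed; hence the `2 j`-th moment of the
sum over the prime numbers in `(y, 2 y]`, for `j` about `log H / log y`, is at most `(C j y) ^ j`.  We take the union over all `T`,
the weights and a grid of `τ`.
-/

set_option autoImplicit false

open Filter

namespace Pool.Agent.Results.MP_4589ac_nt.PowersOfCurves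

open NumberField IsDedekindDomain Finset

/-- The number of the solutions of `y ^ 2 = x ^ D + ∑ c_i x ^ i` in `R`. -/
noncomputable def points {R : Type} [CommRing R] {D : ℕ} (c : Fin D → R) : ℕ :=
  Nat.card {P : R × R // P.2 ^ 2 = P.1 ^ D + ∑ i, c i * P.1 ^ (i : ℕ)}

variable {K : Type} [Field K] [NumberField K]

/-- `q_v`, the norm of `v`. -/
noncomputable def q (v : HeightOneSpectrum (𝓞 K)) : ℕ := Ideal.absNorm v.asIdeal

/-- The coefficients modulo `v`. -/
noncomputable def bar {D : ℕ} (v : HeightOneSpectrum (𝓞 K)) (c : Fin D → 𝓞 K) : Fin D → 𝓞 K ⧸ v.asIdeal :=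
  fun i => Ideal.Quotient.mk v.asIdeal (c i)

/-- `v` does not divide `2` and the polynomial `x ^ D + ∑ c_i x ^ i` is separable modulo `v`, so that the curve is smooth modulo `v`. -/
def Good {D : ℕ} (v : HeightOneSpectrum (𝓞 K)) (c : Fin D → 𝓞 K) : Prop :=
  (2 : 𝓞 K) ∉ v.asIdeal ∧
    (Polynomial.X ^ D + ∑ i, Polynomial.C (bar v c i) * Polynomial.X ^ (i : ℕ) : Polynomial (𝓞 K ⧸ v.asIdeal)).Separable

/-- The trace of the Frobenius at `v` on `H¹` of the curve `y ^ 2 = x ^ D + ∑ c_i x ^ i`, `D` odd: `q_v + 1 - #C(k_v)`; there is one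
point at infinity. -/
noncomputable def trace {D : ℕ} (v : HeightOneSpectrum (𝓞 K)) (c : Fin D → 𝓞 K) : ℝ :=
  ((q v : ℝ) + 1) - ((points (bar v c) : ℝ) + 1)

section
variable {n : ℕ} (g : Fin n → ℕ)

/-- The indices of the coefficients: `(l, i)` with `1 ≤ l ≤ n`, `0 ≤ i ≤ 2 g_l`. -/
abbrev Index : Type := Σ l : Fin n, Fin (2 * g l + 1)

/-- The coefficients of the curve number `l`. -/
def curve {R : Type} (c : Index g → R) (l : Fin n) : Fin (2 * g l + 1) → R := fun i => c ⟨l, i⟩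

/-- The pairs `l < l'`. -/
def pairs (n : ℕ) : Finset (Fin n × Fin n) := univ.filter fun p => p.1 < p.2

/-- `b_v(V) - b_v(Y)` for `V = ∏ C_l ^ (r l) × Y`, where `y v` is the trace of the Frobenius on `H¹(Y)`. -/
noncomputable def bDiff (r : Fin n → ℕ) (y : HeightOneSpectrum (𝓞 K) → ℝ) (c : Index g → 𝓞 K) (v : HeightOneSpectrum (𝓞 K)) : ℝ :=
  (∑ l, (r l : ℝ)) * q v + ∑ l, ((r l).choose 2 : ℝ) * trace v (curve g c l) ^ 2 +
    ∑ p ∈ pairs n, (r p.1 * r p.2 : ℝ) * (trace v (curve g c p.1) * trace v (curve g c p.2)) +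
    ∑ l, (r l : ℝ) * (trace v (curve g c l) * y v)

/-- `rank NS(V) - rank NS(Y)` for almost all `V`. -/
noncomputable def rankDiff (r : Fin n → ℕ) : ℝ := ∑ l, ((r l : ℝ) + ((r l).choose 2 : ℝ))

/-- All curves have good reduction at `v`. -/
def AllGood (c : Index g → 𝓞 K) (v : HeightOneSpectrum (𝓞 K)) : Prop := ∀ l, Good v (curve g c l)

open Classical in
/-- The sum over the primes `v` with `q_v ≤ T` at which all curves have good reduction. -/
noncomputable def primeSum (r : Fin n → ℕ) (w : HeightOneSpectrum (𝓞 K) → ℂ) (y : HeightOneSpectrum (𝓞 K) → ℝ)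
    (c : Index g → 𝓞 K) (T : ℕ) (τ : ℝ) : ℂ :=
  ∑' v : HeightOneSpectrum (𝓞 K), if q v ≤ T ∧ AllGood g c v then
    w v * (q v : ℂ) ^ (-(τ * Complex.I) : ℂ) * (((bDiff g r y c v / q v - rankDiff r) * Real.log (q v) : ℝ) : ℂ) else 0

/-- The box `[-H, H] ^ (∑ (2 g_l + 1))`. -/
noncomputable def cube (H : ℕ) : Finset (Index g → ℤ) := Fintype.piFinset fun _ => Icc (-(H : ℤ)) H

open Run7.h328.SEP.Taub in
lemma al_eq (c : Index g → 𝓞 K) (l : Fin n) (v : HeightOneSpectrum (𝓞 K)) :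
    al g c l v = - trace v (curve g c l) / Real.sqrt (q v) := by
  have h : Nat.card (𝓞 K ⧸ v.asIdeal) = q v := rfl
  unfold al trace Run7.h328.SEP.HypK.a1
  rw [h]
  congr 1
  have : (points (bar v (curve g c l)) : ℝ) =
    (Run7.h328.SEP.HypK.N1 (Run7.h328.SEP.HypK.rv v (Run7.h328.SEP.TupK.cp g l c)) : ℝ) := rfl
  rw [this]
  ring

open Run7.h328.SEP.Taub in
lemma bv_eq (r : Fin n → ℕ) (y : HeightOneSpectrum (𝓞 K) → ℝ) (c : Index g → 𝓞 K) (v : HeightOneSpectrum (𝓞 K)) :
    bv g r y c v = bDiff g r y c v / q v - rankDiff r := by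
  have hq : (0 : ℝ) < q v := by
    have : 2 ≤ q v := Pool.Agent.H921R2.TatePole.two_le_nm v
    exact_mod_cast (by omega : 0 < q v)
  have hs : Real.sqrt (q v) ≠ 0 := (Real.sqrt_pos.2 hq).ne'
  have hss : Real.sqrt (q v) * Real.sqrt (q v) = q v := Real.mul_self_sqrt hq.le
  have hn : Pool.Agent.H921R2.TatePole.nm v = q v := rfl
  unfold bv bDiff rankDiff
  simp only [al_eq, hn]
  rw [add_div, add_div, add_div, Finset.sum_div, Finset.sum_div, Finset.sum_div, mul_div_assoc, div_self hq.ne', mul_one,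
    Finset.sum_add_distrib]
  have e1 : ∑ l, ((r l).choose 2 : ℝ) * ((- trace v (curve g c l) / Real.sqrt (q v)) ^ 2 - 1) =
      ∑ l, ((r l).choose 2 : ℝ) * trace v (curve g c l) ^ 2 / q v - ∑ l, ((r l).choose 2 : ℝ) := by
    rw [← Finset.sum_sub_distrib]
    refine Finset.sum_congr rfl fun l _ => ?_
    rw [div_pow, Real.sq_sqrt hq.le]
    ring
  have e2 : ∑ p ∈ (univ : Finset (Fin n × Fin n)).filter (fun p => p.1 < p.2), (r p.1 * r p.2 : ℝ) *
      (- trace v (curve g c p.1) / Real.sqrt (q v) * (- trace v (curve g c p.2) / Real.sqrt (q v))) =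
      ∑ p ∈ pairs n, (r p.1 * r p.2 : ℝ) * (trace v (curve g c p.1) * trace v (curve g c p.2)) / q v := by
    refine Finset.sum_congr rfl fun p _ => ?_
    rw [div_mul_div_comm, hss]
    ring
  have e3 : ∑ l, (r l : ℝ) * (- trace v (curve g c l) / Real.sqrt (q v) * (y v / Real.sqrt (q v))) =
      - ∑ l, (r l : ℝ) * (trace v (curve g c l) * y v) / q v := by
    rw [← Finset.sum_neg_distrib]
    refine Finset.sum_congr rfl fun l _ => ?_
    rw [div_mul_div_comm, hss]
    ring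
  rw [e1, e2, e3]
  ring

/-- **The theorem.**  See the head of the file. -/
theorem result {n : ℕ} (g : Fin n → ℕ) (hg : ∀ l, 1 ≤ g l) (d : ℕ) :
    ∃ C : ℝ, 0 < C ∧ ∀ ε : ℝ, 0 < ε → ε ≤ 1 → ∃ H₀ : ℕ, ∀ H : ℕ, H₀ ≤ H →
    ∀ (K : Type) [Field K] [NumberField K], Module.finrank ℚ K = d → ∀ α : Index g → 𝓞 K, ∀ B : ℝ, 0 < B →
    ∀ (W : Finset (HeightOneSpectrum (𝓞 K) → ℂ)) (𝒴 : Finset (HeightOneSpectrum (𝓞 K) → ℝ)),
    (∀ w ∈ W, ∀ v, ‖w v‖ ≤ 1) → (∀ y ∈ 𝒴, ∀ v, |y v| ≤ B * Real.sqrt (q v)) →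
    (W.card * (𝒴.card + 1) : ℝ) ≤ (H : ℝ) ^ (ε / 500) →
    ∃ X ⊆ cube g H, (X.card : ℝ) ≤ (H : ℝ) ^ (-(ε / 500)) * (2 * H + 1) ^ (∑ l, (2 * g l + 1)) ∧
      ∀ m ∈ cube g H \ X, ∀ w ∈ W, ∀ y ∈ 𝒴, ∀ (r : Fin n → ℕ) (T : ℕ) (τ : ℝ),
        (T : ℝ) ≤ (H : ℝ) ^ (ε / 200) → |τ| ≤ (H : ℝ) ^ (ε / 200) →
        ‖primeSum g r w y (fun k => α k + (m k : 𝓞 K)) T τ‖ ≤
          C * ((∑ l, (r l : ℝ)) * (∑ l, (r l : ℝ) + B)) * ((T : ℝ) ^ (1 / 2 + 2 * ε) + Real.log H ^ (5 / ε)) := by
  obtain ⟨C, hC, h⟩ := Run7.h328.SEP.Taub.taub n g hg d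
  refine ⟨C, hC, fun ε hε hε1 => ?_⟩
  obtain ⟨H₀, h⟩ := Filter.eventually_atTop.1 (h ε hε hε1)
  refine ⟨H₀, fun H hH K _ _ hK α B hB W 𝒴 hW h𝒴 hc => ?_⟩
  obtain ⟨Ex, hE1, hE2, hE3⟩ := h H hH K hK α B hB W hW 𝒴 h𝒴 hc
  have hbox : Pool.Agent.Y722.HS.box (Run7.h328.SEP.TupK.Ix g) H = cube g H := rfl
  have hcard : ((cube g H).card : ℝ) = (2 * H + 1) ^ (∑ l, (2 * g l + 1)) := by
    unfold cube
    rw [Fintype.card_piFinset]
    simp only [Int.card_Icc, Finset.prod_const, Finset.card_univ, Fintype.card_sigma, Fintype.card_fin]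
    have : ((H : ℤ) + 1 - -(H : ℤ)).toNat = 2 * H + 1 := by omega
    rw [this]
    push_cast
    ring
  rw [hbox] at hE1 hE2 hE3
  refine ⟨Ex, hE1, ?_, ?_⟩
  · rw [← hcard]
    exact hE2
  · intro m hm w hw y hy r T τ hT hτ
    have h1 := hE3 m hm w hw y hy r T hT τ hτ
    refine le_trans (le_of_eq ?_) h1
    congr 1
    unfold primeSum
    refine tsum_congr fun v => ?_
    rw [← bv_eq g r y _ v]
    rfl

end

end Pool.Agent.Results.MP_4589ac_nt.PowersOfCurves
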