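import Pool.Agent.Run7.h184.TC.Lim
import Pool.Agent.Run7.h184.TC.Gal
import Pool.Agent.Run7.h184.TC.Univ

/-!
# The Tauberian Tate conjecture for divisors: the totally complex fields suffice

`V` is a smooth projective variety over a number field `K` (for instance `K = ℚ`).  For every finite
extension `F` of `K` the conjecture for `V/F` is the limit formula

`T⁻¹ ∑_{w ∤ bad, Nw ≤ T} b_w log Nw / Nw → rank NS(V/F)`  (`T → ∞`), `b_w = Tr(Frob_w | H²)`,

where for `w | p` with residue degree `f` we have `Frob_w = Frob_p ^ f`.  We call `average F T` the left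
hand side and `error F T = average F T - rank NS(V/F)`.  Here `NS(V/F) ⊗ ℚ` is the space of the elements
of `W = NS(V) ⊗ ℚ` fixed by the absolute Galois group of `F`.  All we use is that `W` is some finite
dimensional representation of the absolute Galois group of `K`, and that the numbers `b_w` are the traces
of powers of matrices `frob p`; there is no other condition on `W` and on the matrices.

Call `F` TOTALLY COMPLEX OF CYCLIC TYPE if `F` has no real embedding and `N / F` is cyclic for a finite
Galois extension `N` of `K` which contains `F`.  Let `r_v(F)` be the number of the real embeddings of `F`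
above the real place `v` of `K`.

0. (No hypothesis.)  Let `F_i` be finitely many finite extensions of `K` and `a_i` integers with
   `∑_i a_i r_v(F_i) = 0` for all real places `v` of `K` (for instance one totally complex `F`, or
   `F - r₁(F) ℚ` over `K = ℚ`).  There are `m ≥ 1`, finitely many totally complex fields `Y_j` of cyclic
   type and integers `n_j` such that, for ALL `V`,
   `m ∑_i a_i error(F_i, T) - ∑_j n_j error(Y_j, T) → 0`  (`T → ∞`).

Now assume the limit formula for `V` over the totally complex fields of cyclic type only.  Then: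

1. there are functions `δ_v(T)`, one for each real place `v` of `K`, such that for EVERY finite extension
   `F` of `K` we have `error F T = ∑_v r_v(F) δ_v(T) + o(1)`  (`T → ∞`);
   in particular the conjecture holds for every totally complex `F` (solvable or not), whatever `K` is;
2. the conjecture holds for all `F` as soon as it holds for finitely many `F_i` whose vectors
   `(r_v(F_i))_v` span `ℚ^{v}`;
3. over `K = ℚ`: `r₁(F₀) error(F, T) - r₁(F) error(F₀, T) → 0` for all `F`, `F₀`, where `r₁` is the number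
   of real embeddings.

4. Hence, over `ℚ`: the conjecture holds for all number fields `F` if and only if it holds for the totally
   complex fields of cyclic type and for ONE number field with a real embedding (for instance `ℚ`).

The proof.  By Artin formalism the sum `∑_{Nw ≤ T}` depends additively on the permutation character of
`Gal(N/K)` on `Gal(N/K)/Gal(N/F)`, except for the finitely many places ramified in `N`, whose contribution
is `O(1)` and disappears in the average; so does the dimension of the space of invariants.  Modulo the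
characters of `G/H`, `H` cyclic without complex conjugations, a multiple of a combination `f` of such
characters vanishes as soon as `f` vanishes at the complex conjugations, after adjoining to `N` square
roots of suitable elements (`TC/Rel`).
-/

set_option autoImplicit false

namespace Pool.Agent.Results.MP_4589ac_nt.TotallyComplexFieldsSuffice

open NumberField IsDedekindDomain Filter Topology
open scoped Classical

/-- `F` is totally complex, and there is a finite Galois extension `N` of `K`, containing `F`, such that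
`N / F` is cyclic. -/
def CyclicType (K F : Type) [Field K] [Field F] [Algebra K F] : Prop :=
  IsEmpty (F →+* ℝ) ∧ ∃ (N : Type) (_ : Field N) (_ : NumberField N) (_ : Algebra K N)
    (_ : Algebra F N) (_ : IsScalarTower K F N), IsGalois K N ∧ IsCyclic Gal(N/F)

/-- The number `r_v(F)` of the embeddings of `F` in `ℝ` that extend `v : K → ℝ`. -/
noncomputable def realAbove {K : Type} [Field K] (F : Type) [Field F] [Algebra K F]
    (v : K →+* ℝ) : ℕ :=
  Nat.card {ρ : F →+* ℝ // ρ.comp (algebraMap K F) = v}

/-- The Frobenius data of `V` over `K`: for a prime ideal `p` of `K` outside the set `bad`, a matrix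
`frob p` over `ℚ` whose characteristic polynomial is the one of the geometric Frobenius at `p` on
`H²(V)` (for instance its companion matrix). -/
structure Frobenii (K : Type) [Field K] [NumberField K] (d : ℕ) where
  bad : Set (Ideal (𝓞 K))
  frob : Ideal (𝓞 K) → Matrix (Fin d) (Fin d) ℚ

section
variable {K : Type} [Field K] [NumberField K] {d : ℕ} (X : Frobenii K d)

/-- The average `T⁻¹ ∑_{Nw ≤ T} b_w log Nw / Nw` over the primes `w` of `F` such that the prime `p` of
`K` below `w` is not in `bad`; here `b_w = tr((frob p)^f)` where `Nw = Np^f` (so `f` is the residue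
degree, and `(frob p)^f` is the Frobenius at `w`).  There are only finitely many `w` with `Nw ≤ T`. -/
noncomputable def average (F : Type) [Field F] [NumberField F] [Algebra K F] (T : ℝ) : ℝ :=
  T⁻¹ * ∑' w : HeightOneSpectrum (𝓞 F),
    if w.asIdeal.comap (algebraMap (𝓞 K) (𝓞 F)) ∉ X.bad ∧ (Ideal.absNorm w.asIdeal : ℝ) ≤ T then
      (((X.frob (w.asIdeal.comap (algebraMap (𝓞 K) (𝓞 F)))) ^
        Nat.log (Ideal.absNorm (w.asIdeal.comap (algebraMap (𝓞 K) (𝓞 F))))
          (Ideal.absNorm w.asIdeal)).trace : ℝ) *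
        Real.log (Ideal.absNorm w.asIdeal) / Ideal.absNorm w.asIdeal
    else 0

/-- The classes which are rational over `F`: `W` is a representation of the absolute Galois group of `K`
(here `W = NS(V) ⊗ ℚ`, the divisors on `V` over the algebraic closure of `K` up to algebraic
equivalence), and `rational ρ F` is the space of the elements of `W` fixed by all elements of the
absolute Galois group which fix the image of `F` under the (chosen) embedding of `F` over `K` in the
algebraic closure (`= NS(V/F) ⊗ ℚ`). -/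
def rational {W : Type} [AddCommGroup W] [Module ℚ W]
    (ρ : Representation ℚ Gal(AlgebraicClosure K/K) W)
    (F : Type) [Field F] [NumberField F] [Algebra K F] : Submodule ℚ W where
  carrier := {x | ∀ σ : Gal(AlgebraicClosure K/K),
    (∀ a : F, σ ((IsAlgClosed.lift : F →ₐ[K] AlgebraicClosure K) a) =
      (IsAlgClosed.lift : F →ₐ[K] AlgebraicClosure K) a) → ρ σ x = x}
  add_mem' {x y} hx hy := fun σ hσ => by rw [map_add, hx σ hσ, hy σ hσ]
  zero_mem' := fun σ _ => map_zero _
  smul_mem' c x hx := fun σ hσ => by rw [map_smul, hx σ hσ]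

/-- The conjecture for `V/F`: the averages have the limit `rank NS(V/F)`. -/
def TateLimit {W : Type} [AddCommGroup W] [Module ℚ W]
    (ρ : Representation ℚ Gal(AlgebraicClosure K/K) W)
    (F : Type) [Field F] [NumberField F] [Algebra K F] : Prop :=
  Tendsto (average X F) atTop (𝓝 (Module.finrank ℚ (rational ρ F)))

/-- The error term `average F T - rank NS(V/F)`: the conjecture for `V/F` says that it tends to `0`. -/
noncomputable def error {W : Type} [AddCommGroup W] [Module ℚ W]
    (ρ : Representation ℚ Gal(AlgebraicClosure K/K) W)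
    (F : Type) [Field F] [NumberField F] [Algebra K F] (T : ℝ) : ℝ :=
  average X F T - Module.finrank ℚ (rational ρ F)

end

section proof

open Pool.Agent.Run7.h184.TC Pool.Agent.R433.MD Pool.Agent.R333.BR
open Pool.Agent.H921R2.TatePole (nm two_le_nm nm_summable)

section
variable {K : Type} [Field K] [NumberField K] {d : ℕ} (X : Frobenii K d)

/-- the local data -/
noncomputable def dat (v : HeightOneSpectrum (𝓞 K)) (n : ℕ) : ℝ :=
  if v.asIdeal ∉ X.bad then
    (((X.frob v.asIdeal) ^ n).trace : ℝ) * Real.log ((nm v ^ n : ℕ) : ℝ) / ((nm v ^ n : ℕ) : ℝ)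
  else 0

theorem average_eq (F : Ext K) (T : ℝ) : average X F.F T = T⁻¹ * sumTo (dat X) F T := by
  rw [average, sumTo]
  congr 1
  refine tsum_congr fun w => ?_
  have h1 : nm w = nm (und (K := K) w) ^ fdeg (⟨w, rfl⟩ : Fib F.F (und (K := K) w)) :=
    nm_fib (K := K) ⟨w, rfl⟩
  have h2 : Nat.log (nm (und (K := K) w)) (nm w) =
      fdeg (⟨w, rfl⟩ : Fib F.F (und (K := K) w)) := by
    rw [h1]
    have := two_le_nm (und (K := K) w)
    exact Nat.log_pow (by omega) _
  change (if (und (K := K) w).asIdeal ∉ X.bad ∧ (nm w : ℝ) ≤ T then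
      (((X.frob (und (K := K) w).asIdeal) ^ Nat.log (nm (und (K := K) w)) (nm w)).trace : ℝ) *
        Real.log (nm w) / nm w else 0) = loc (cut (dat X) T) w
  rw [h2, loc, cut, ← h1, dat, ← h1]
  by_cases h3 : (und (K := K) w).asIdeal ∈ X.bad
  · simp [h3]
  · simp only [h3, not_false_eq_true, true_and, if_true]

end

section
variable {K : Type} [Field K] [NumberField K] {d : ℕ} {X : Frobenii K d}
  {W : Type} [AddCommGroup W] [Module ℚ W] [FiniteDimensional ℚ W]
  {ρ : Representation ℚ Gal(AlgebraicClosure K/K) W}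

theorem limit_iff (F : Ext K) : TateLimit X ρ F.F ↔
    Tendsto (fun T => T⁻¹ * sumTo (dat X) F T) atTop (𝓝 ((ofRep ρ).rank F : ℝ)) := by
  have h1 : average X F.F = fun T => T⁻¹ * sumTo (dat X) F T := funext fun T => average_eq X F T
  rw [TateLimit, h1]
  exact Iff.rfl

theorem mk_sum {t : ℕ} (e : Fin t → ℤ) (g : Fin t → ℝ → ℝ) :
    ∑ i, e i • (Submodule.Quotient.mk (g i) : (ℝ → ℝ) ⧸ O1) =
      Submodule.Quotient.mk (∑ i, e i • g i) := by
  rw [← Submodule.mkQ_apply, map_sum]
  refine Finset.sum_congr rfl fun i _ => ?_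
  rw [map_zsmul]
  rfl

theorem univ_of (K : Type) [Field K] [NumberField K] (t : ℕ) (F : Fin t → Type)
    [∀ i, Field (F i)] [∀ i, NumberField (F i)] [∀ i, Algebra K (F i)] (a : Fin t → ℤ)
    (h : ∀ v : K →+* ℝ, ∑ i, a i * (realAbove (F i) v : ℤ) = 0) :
    ∃ (m r : ℕ) (Y : Fin r → Type) (_ : ∀ j, Field (Y j)) (_ : ∀ j, NumberField (Y j))
      (_ : ∀ j, Algebra K (Y j)) (n : Fin r → ℤ), m ≠ 0 ∧ (∀ j, CyclicType K (Y j)) ∧
      ∀ (d : ℕ) (X : Frobenii K d) (W : Type) [AddCommGroup W] [Module ℚ W]
        [FiniteDimensional ℚ W] (ρ : Representation ℚ Gal(AlgebraicClosure K/K) W),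
        Tendsto (fun T => m * ∑ i, a i * error X ρ (F i) T - ∑ j, n j * error X ρ (Y j) T)
          atTop (𝓝 0) := by
  obtain ⟨m, r, Y, n, hm, hY, hV⟩ := abs_univ (fun i => (⟨F i⟩ : Ext K)) a h
  refine ⟨m, r, fun j => (Y j).F, fun j => inferInstance, fun j => inferInstance,
    fun j => inferInstance, n, hm, fun j => ⟨(hY j).complex, (hY j).cyclic⟩,
    fun d X W _ _ _ ρ => ?_⟩
  have h1 := hV _ _ (formal_err (dat X) (ofRep ρ))
  rw [mk_sum, mk_sum, ← Submodule.mkQ_apply, ← Submodule.mkQ_apply, ← map_zsmul, ← map_sub,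
    Submodule.mkQ_apply, Submodule.Quotient.mk_eq_zero] at h1
  have h2 : Tendsto ((m : ℤ) • ∑ i, a i • err (dat X) (ofRep ρ) ⟨F i⟩ -
    ∑ j, n j • err (dat X) (ofRep ρ) (Y j)) atTop (𝓝 0) := h1
  refine h2.congr fun T => ?_
  have h3 : ∀ G : Ext K, err (dat X) (ofRep ρ) G T = error X ρ G.F T := fun G => by
    rw [err, error, average_eq]
    rfl
  simp only [Pi.sub_apply, Finset.sum_apply, zsmul_eq_mul, Int.cast_natCast, Pi.mul_apply,
    Pi.intCast_apply, Pi.natCast_apply, h3]

theorem hyp_of (h : ∀ (F : Type) [Field F] [NumberField F] [Algebra K F], CyclicType K F →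
      TateLimit X ρ F) (Z : Ext K) (hZ : CycType K Z.F) :
    Tendsto (fun T => T⁻¹ * sumTo (dat X) Z T) atTop (𝓝 ((ofRep ρ).rank Z : ℝ)) :=
  (limit_iff Z).1 (h Z.F ⟨hZ.complex, hZ.cyclic⟩)

theorem defect_of (h : ∀ (F : Type) [Field F] [NumberField F] [Algebra K F], CyclicType K F →
      TateLimit X ρ F) : ∃ δ : (K →+* ℝ) → ℝ → ℝ,
      ∀ (F : Type) [Field F] [NumberField F] [Algebra K F],
        Tendsto (fun T => error X ρ F T - ∑ v : K →+* ℝ, (realAbove F v : ℝ) * δ v T)
          atTop (𝓝 0) := by
  obtain ⟨δ, hδ⟩ := lim_defect (dat X) (ofRep ρ) (hyp_of h)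
  refine ⟨δ, fun F _ _ _ => (hδ ⟨F⟩).congr fun T => ?_⟩
  rw [← average_eq, error]
  rfl

theorem complex_of (h : ∀ (F : Type) [Field F] [NumberField F] [Algebra K F], CyclicType K F →
      TateLimit X ρ F) (F : Type) [Field F] [NumberField F] [Algebra K F]
    (hF : IsEmpty (F →+* ℝ)) : TateLimit X ρ F := by
  obtain ⟨δ, hδ⟩ := defect_of h
  have h1 := hδ F
  have h2 : ∀ v : K →+* ℝ, realAbove F v = 0 := by
    intro v
    rw [realAbove, Nat.card_eq_zero]
    exact Or.inl ⟨fun x => hF.false x.1⟩
  have h3 : ∀ T, ∑ v : K →+* ℝ, (realAbove F v : ℝ) * δ v T = 0 := fun T =>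
    Finset.sum_eq_zero fun v _ => by rw [h2 v, Nat.cast_zero, zero_mul]
  simp only [h3, sub_zero] at h1
  exact tendsto_sub_nhds_zero_iff.1 h1

theorem span_of (h : ∀ (F : Type) [Field F] [NumberField F] [Algebra K F], CyclicType K F →
      TateLimit X ρ F) (t : ℕ) (F : Fin t → Type) [∀ i, Field (F i)] [∀ i, NumberField (F i)]
    [∀ i, Algebra K (F i)]
    (hspan : Submodule.span ℚ (Set.range fun (i : Fin t) (v : K →+* ℝ) =>
      (realAbove (F i) v : ℚ)) = ⊤) (hF : ∀ i, TateLimit X ρ (F i))
    (F' : Type) [Field F'] [NumberField F'] [Algebra K F'] : TateLimit X ρ F' :=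
  (limit_iff ⟨F'⟩).2 (lim_all (dat X) (ofRep ρ) (hyp_of h) (fun i => (⟨F i⟩ : Ext K)) hspan
    (fun i => (limit_iff ⟨F i⟩).1 (hF i)) ⟨F'⟩)

end

section rat
variable {d : ℕ} {X : Frobenii ℚ d} {W : Type} [AddCommGroup W] [Module ℚ W]
  [FiniteDimensional ℚ W] {ρ : Representation ℚ Gal(AlgebraicClosure ℚ/ℚ) W}

theorem realAbove_rat (F : Type) [Field F] [NumberField F] (v : ℚ →+* ℝ) :
    realAbove F v = Nat.card (F →+* ℝ) := by
  unfold realAbove
  exact Nat.card_congr (Equiv.subtypeUnivEquiv fun ρ => Subsingleton.elim _ _)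

theorem compare_of (h : ∀ (F : Type) [Field F] [NumberField F], CyclicType ℚ F →
      TateLimit X ρ F) (F F₀ : Type) [Field F] [NumberField F] [Field F₀] [NumberField F₀] :
    Tendsto (fun T => (Nat.card (F₀ →+* ℝ) : ℝ) * error X ρ F T -
      (Nat.card (F →+* ℝ) : ℝ) * error X ρ F₀ T) atTop (𝓝 0) := by
  obtain ⟨δ, hδ⟩ := defect_of (X := X) (ρ := ρ) fun F _ _ inst hF => by
    have h1 : inst = DivisionRing.toRatAlgebra := Subsingleton.elim _ _
    subst h1
    exact h F hF
  have h1 := ((hδ F).const_mul (Nat.card (F₀ →+* ℝ) : ℝ)).sub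
    ((hδ F₀).const_mul (Nat.card (F →+* ℝ) : ℝ))
  rw [mul_zero, mul_zero, sub_zero] at h1
  refine h1.congr fun T => ?_
  rw [Fintype.sum_eq_single (Rat.castHom ℝ) fun v hv => absurd (Subsingleton.elim _ _) hv,
    Fintype.sum_eq_single (Rat.castHom ℝ) fun v hv => absurd (Subsingleton.elim _ _) hv,
    realAbove_rat, realAbove_rat]
  ring

theorem rat_iff : (∀ (F : Type) [Field F] [NumberField F], TateLimit X ρ F) ↔
    (∀ (F : Type) [Field F] [NumberField F], CyclicType ℚ F → TateLimit X ρ F) ∧
      ∃ (F₀ : Type) (_ : Field F₀) (_ : NumberField F₀), Nonempty (F₀ →+* ℝ) ∧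
        TateLimit X ρ F₀ := by
  constructor
  · intro h
    exact ⟨fun F _ _ _ => h F, ℚ, inferInstance, inferInstance, ⟨Rat.castHom ℝ⟩, h ℚ⟩
  · rintro ⟨h, F₀, _, _, hne, h0⟩ F _ _
    have h1 := compare_of h F F₀
    have h2 := (tendsto_sub_nhds_zero_iff.2 h0).const_mul (Nat.card (F →+* ℝ) : ℝ)
    rw [mul_zero] at h2
    have h3 := h1.add h2
    rw [add_zero] at h3
    have h6 : (Nat.card (F₀ →+* ℝ) : ℝ) ≠ 0 := Nat.cast_ne_zero.2 (by
      have : Nonempty (F₀ →+* ℝ) := hne
      exact Nat.card_pos.ne')
    have h4 := h3.const_mul ((Nat.card (F₀ →+* ℝ) : ℝ)⁻¹)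
    rw [mul_zero] at h4
    refine tendsto_sub_nhds_zero_iff.1 (h4.congr fun T => ?_)
    rw [error, error]
    field_simp
    ring

end rat

end proof

/-- **Main theorem.** -/
theorem result :
    -- 0. the universal relations between the error terms (no hypothesis)
    (∀ (K : Type) [Field K] [NumberField K] (t : ℕ) (F : Fin t → Type)
      [∀ i, Field (F i)] [∀ i, NumberField (F i)] [∀ i, Algebra K (F i)] (a : Fin t → ℤ),
      (∀ v : K →+* ℝ, ∑ i, a i * (realAbove (F i) v : ℤ) = 0) →
      ∃ (m r : ℕ) (Y : Fin r → Type) (_ : ∀ j, Field (Y j)) (_ : ∀ j, NumberField (Y j))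
        (_ : ∀ j, Algebra K (Y j)) (n : Fin r → ℤ), m ≠ 0 ∧ (∀ j, CyclicType K (Y j)) ∧
        ∀ (d : ℕ) (X : Frobenii K d) (W : Type) [AddCommGroup W] [Module ℚ W]
          [FiniteDimensional ℚ W] (ρ : Representation ℚ Gal(AlgebraicClosure K/K) W),
          Tendsto (fun T => m * ∑ i, a i * error X ρ (F i) T - ∑ j, n j * error X ρ (Y j) T)
            atTop (𝓝 0)) ∧
    -- over any number field `K`, if the conjecture holds for totally complex fields of cyclic type:
    (∀ (K : Type) [Field K] [NumberField K] (d : ℕ) (X : Frobenii K d)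
      (W : Type) [AddCommGroup W] [Module ℚ W] [FiniteDimensional ℚ W]
      (ρ : Representation ℚ Gal(AlgebraicClosure K/K) W),
      (∀ (F : Type) [Field F] [NumberField F] [Algebra K F], CyclicType K F → TateLimit X ρ F) →
      -- 1. the defects of the real places; all totally complex fields
      (∃ δ : (K →+* ℝ) → ℝ → ℝ, ∀ (F : Type) [Field F] [NumberField F] [Algebra K F],
        Tendsto (fun T => error X ρ F T - ∑ v : K →+* ℝ, (realAbove F v : ℝ) * δ v T)
          atTop (𝓝 0)) ∧
      (∀ (F : Type) [Field F] [NumberField F] [Algebra K F], IsEmpty (F →+* ℝ) →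
        TateLimit X ρ F) ∧
      -- 2. finitely many fields suffice for the rest
      (∀ (t : ℕ) (F : Fin t → Type) [∀ i, Field (F i)] [∀ i, NumberField (F i)]
          [∀ i, Algebra K (F i)],
        Submodule.span ℚ (Set.range fun (i : Fin t) (v : K →+* ℝ) =>
          (realAbove (F i) v : ℚ)) = ⊤ →
        (∀ i, TateLimit X ρ (F i)) →
        ∀ (F' : Type) [Field F'] [NumberField F'] [Algebra K F'], TateLimit X ρ F')) ∧
    -- over `ℚ`
    (∀ (d : ℕ) (X : Frobenii ℚ d) (W : Type) [AddCommGroup W] [Module ℚ W]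
      [FiniteDimensional ℚ W] (ρ : Representation ℚ Gal(AlgebraicClosure ℚ/ℚ) W),
      -- 3. comparison of any two fields
      ((∀ (F : Type) [Field F] [NumberField F], CyclicType ℚ F → TateLimit X ρ F) →
        ∀ (F F₀ : Type) [Field F] [NumberField F] [Field F₀] [NumberField F₀],
          Tendsto (fun T => (Nat.card (F₀ →+* ℝ) : ℝ) * error X ρ F T -
            (Nat.card (F →+* ℝ) : ℝ) * error X ρ F₀ T) atTop (𝓝 0)) ∧
      -- 4. all number fields, the totally complex ones, and one real field
      ((∀ (F : Type) [Field F] [NumberField F], TateLimit X ρ F) ↔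
        (∀ (F : Type) [Field F] [NumberField F], CyclicType ℚ F → TateLimit X ρ F) ∧
          ∃ (F₀ : Type) (_ : Field F₀) (_ : NumberField F₀), Nonempty (F₀ →+* ℝ) ∧
            TateLimit X ρ F₀)) :=
  ⟨fun K _ _ t F _ _ _ a h => univ_of K t F a h,
    fun _ _ _ _ _ _ _ _ _ _ h => ⟨defect_of h, fun F _ _ _ hF => complex_of h F hF,
      fun t F _ _ _ hspan hF F' _ _ _ => span_of h t F hspan hF F'⟩,
    fun _ _ _ _ _ _ _ => ⟨fun h F F₀ _ _ _ _ => compare_of h F F₀, rat_iff⟩⟩

end Pool.Agent.Results.MP_4589ac_nt.TotallyComplexFieldsSuffice
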