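import Mathlib
import Pool.Agent.Run7.h508.BR.Zero
import Pool.Agent.Run7.h508.BR.Leo2
import Pool.Agent.Run7.h508.BR.Psum

/-!
# The Tauberian Tate conjecture over all number fields and everywhere unramified extensions of prime
# degree

Let `V` be a smooth projective variety over a number field `k`. For number fields `K ⊇ k` the
Tauberian Tate conjecture for `V` over `K` says that `T⁻¹ ∑_{q_w ≤ T} b_w log(q_w) / q_w`, the sum
over the primes `w` of `K`, tends to the rank of `NS(V/K)`.

If it holds for one totally complex field `K₀ ⊇ k`, and for every real place `v` of `k` for one field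
`K_v ⊇ k` with real places, all over `v` (for `k = ℚ`: for `K_v = ℚ`), then it holds for all number
fields `K ⊇ k` if and only if it holds for the difference between `L` and `K` for all totally
complex fields `K ⊇ k` and all everywhere unramified Galois extensions `L/K` of prime degree in which
the primes above a given integer `m` are completely split.
-/

set_option autoImplicit false
set_option linter.unusedSectionVars false

namespace Pool.Agent.Results.MP_4589ac_nt.UnramifiedExtensions

open NumberField IsDedekindDomain Filter Topology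
open Pool.Agent.Run7.h508.BR (RankFunctor)

/-- The prime of `k` below a prime of `K`. -/
noncomputable def below (k : Type) [Field k] [NumberField k] {K : Type} [Field K] [NumberField K]
    [Algebra k K] (w : HeightOneSpectrum (𝓞 K)) : HeightOneSpectrum (𝓞 k) where
  asIdeal := w.asIdeal.under (𝓞 k)
  isPrime := by
    have := w.isPrime
    infer_instance
  ne_bot := mt Ideal.eq_bot_of_comap_eq_bot w.ne_bot

open Classical in
/-- The sum of `b_w log(q_w) / q_w` over the primes `w` of `K` with `q_w ≤ T`. The number `b v n` is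
the trace of the `n`-th power of the Frobenius at the prime `v` of `k` on `H²(V)` (`0` at the primes
of bad reduction); so the trace of the Frobenius at `w` is `b v f`, if `v` is below `w` and `f` is
the degree of the extension of the residue fields. -/
noncomputable def primeSum {k : Type} [Field k] [NumberField k]
    (b : HeightOneSpectrum (𝓞 k) → ℕ → ℂ) (K : Type) [Field K] [NumberField K] [Algebra k K]
    (T : ℝ) : ℂ :=
  ∑' w : HeightOneSpectrum (𝓞 K), if (Ideal.absNorm w.asIdeal : ℝ) ≤ T then
    b (below k w) (w.asIdeal.inertiaDeg (𝓞 k)) * (Real.log (Ideal.absNorm w.asIdeal) : ℂ) /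
      (Ideal.absNorm w.asIdeal : ℂ) else 0

/-- The Tauberian Tate conjecture over `K`; `D` is the functor `K ↦ NS(V/K) ⊗ ℚ`. -/
def Tate {k : Type} [Field k] [NumberField k] (b : HeightOneSpectrum (𝓞 k) → ℕ → ℂ)
    (D : RankFunctor k) (K : Type) [Field K] [NumberField K] [Algebra k K] : Prop :=
  Tendsto (fun T : ℝ => primeSum b K T / T) atTop (𝓝 (D.rank K : ℂ))

/-- The conjecture for the difference between `L` and `K`. -/
def TateDifference {k : Type} [Field k] [NumberField k] (b : HeightOneSpectrum (𝓞 k) → ℕ → ℂ)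
    (D : RankFunctor k) (K L : Type) [Field K] [NumberField K] [Algebra k K] [Field L]
    [NumberField L] [Algebra k L] : Prop :=
  Tendsto (fun T : ℝ => (primeSum b L T - primeSum b K T) / T) atTop
    (𝓝 ((D.rank L : ℂ) - (D.rank K : ℂ)))

/-- All inertia groups of `L/K` are trivial, and the decomposition groups of the primes above `m`
are trivial. -/
def UnramifiedSplit (m : ℕ) (K L : Type) [Field K] [Field L] [Algebra K L] : Prop :=
  ∀ P : Ideal (𝓞 L), P.IsMaximal → ∀ g : L ≃ₐ[K] L,
    ((∀ x y : 𝓞 L, (y : L) = g x → y - x ∈ P) → g = 1) ∧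
    ((m : 𝓞 L) ∈ P → (∀ x y : 𝓞 L, (y : L) = g x → (y ∈ P ↔ x ∈ P)) → g = 1)

/-- The conjecture for the differences in the everywhere unramified extensions of prime degree,
split above `m`, of the totally complex fields `K ⊇ k`. -/
def UnramifiedCase {k : Type} [Field k] [NumberField k] (b : HeightOneSpectrum (𝓞 k) → ℕ → ℂ)
    (D : RankFunctor k) (m : ℕ) : Prop :=
  ∀ (K L : Type) [Field K] [NumberField K] [Field L] [NumberField L] [Algebra k K] [Algebra K L]
    [Algebra k L] [IsScalarTower k K L] [IsGalois K L], IsTotallyComplex K →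
    (Module.finrank K L).Prime → UnramifiedSplit m K L → TateDifference b D K L

/-- The number of the real embeddings of `K` over the embedding `v` of `k`. -/
noncomputable def realAbove {k : Type} [Field k] (v : k →+* ℂ) (K : Type) [Field K] [Algebra k K] :
    ℕ := Nat.card {χ : K →+* ℂ // ComplexEmbedding.IsReal χ ∧ χ.comp (algebraMap k K) = v}

section proof

open Pool.Agent.Run7.h508.BR Pool.Agent.K4H74.SC

lemma unrSplit_of {m : ℕ} {K L : Type} [Field K] [Field L] [Algebra K L]
    (h : UnrSplit m K L) : UnramifiedSplit m K L := by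
  intro P hP g
  refine ⟨fun h1 => (h P hP).1 g fun x => h1 x _ rfl, fun hm h1 => (h P hP).2 hm g fun x =>
    h1 x _ rfl⟩

variable {k : Type} [Field k] [NumberField k] (b : HeightOneSpectrum (𝓞 k) → ℕ → ℂ)

/-- the normalised traces -/
noncomputable def nrm (y : HeightOneSpectrum (𝓞 k) × ℕ+) : ℂ :=
  b y.1 y.2 / ((Ideal.absNorm y.1.asIdeal : ℂ) ^ (y.2 : ℕ))

lemma primeSum_eq (K : Type) [Field K] [NumberField K] [Algebra k K] (T : ℝ) :
    primeSum b K T = PrimeSum (nrm b) K T := by
  refine tsum_congr fun w => ?_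
  by_cases h : (Ideal.absNorm w.asIdeal : ℝ) ≤ T
  · rw [if_pos h, if_pos h]
    have h1 := idx_pow (k := k) (w, (1 : ℕ+))
    have h2 : ((Ideal.absNorm (idx k (w, (1 : ℕ+))).1.asIdeal : ℂ)) ^
        ((idx k (w, (1 : ℕ+))).2 : ℕ) = (Ideal.absNorm w.asIdeal : ℂ) := by
      have h3 : (Ideal.absNorm (idx k (w, (1 : ℕ+))).1.asIdeal) ^
        ((idx k (w, (1 : ℕ+))).2 : ℕ) = Ideal.absNorm w.asIdeal := by
        rw [h1]
        exact pow_one _
      exact_mod_cast h3
    have h4 : nrm b (idx k (w, (1 : ℕ+))) =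
        b (below k w) (w.asIdeal.inertiaDeg (𝓞 k)) / (Ideal.absNorm w.asIdeal : ℂ) := by
      rw [nrm, h2]
      congr 1
      change b (below k w) (w.asIdeal.inertiaDeg (𝓞 k) * 1) = _
      rw [mul_one]
    rw [h4]
    ring
  · rw [if_neg h, if_neg h]

variable {b} {C : ℝ}
  (hb : ∀ (v : HeightOneSpectrum (𝓞 k)) (n : ℕ), ‖b v n‖ ≤ C * (Ideal.absNorm v.asIdeal : ℝ) ^ n)

include hb in
lemma nrm_bound (y : HeightOneSpectrum (𝓞 k) × ℕ+) : ‖nrm b y‖ ≤ C := by
  have hN : (0 : ℝ) < (Ideal.absNorm y.1.asIdeal : ℝ) := by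
    have := two_le_absNorm y.1
    exact_mod_cast (by omega : 0 < Ideal.absNorm y.1.asIdeal)
  rw [nrm, norm_div, norm_pow, Complex.norm_natCast, div_le_iff₀ (pow_pos hN _)]
  exact hb _ _

/-- the function of number fields -/
noncomputable def tateFun (D : RankFunctor k) : FieldFun k (((ℝ → ℂ) × ℚ) ⧸ tSub) :=
  ((psiFun (nrm b) (nrm_bound hb)).pair D.toFun).comp (Submodule.mkQ tSub).toAddMonoidHom

lemma tateFun_comb (D : RankFunctor k) {ι : Type} [Fintype ι] (K : ι → Type) [∀ i, Field (K i)]
    [∀ i, NumberField (K i)] [∀ i, Algebra k (K i)] (t : ι → ℤ) :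
    ∑ i, t i • (tateFun hb D).f (K i) = 0 ↔
    Tendsto (fun T : ℝ => (∑ i, t i * primeSum b (K i) T) / T) atTop
      (𝓝 (∑ i, t i * (D.rank (K i) : ℂ))) := by
  have h1 : ∑ i, t i • (tateFun hb D).f (K i) = Submodule.mkQ tSub
      (∑ i, t i • ((Psi (nrm b) (K i), (D.rank (K i) : ℚ)) : (ℝ → ℂ) × ℚ)) := by
    rw [map_sum]
    refine Finset.sum_congr rfl fun i _ => ?_
    rw [map_zsmul]
    congr 1
    change (Submodule.mkQ tSub) ((psiFun (nrm b) (nrm_bound hb)).f (K i), (D.rank (K i) : ℚ)) = _
    rw [psiFun_f]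
  rw [h1, Submodule.mkQ_apply, Submodule.Quotient.mk_eq_zero, mem_tSub]
  have h2 : (∑ i, t i • ((Psi (nrm b) (K i), (D.rank (K i) : ℚ)) : (ℝ → ℂ) × ℚ)).1 =
      fun T => ∑ i, t i * Psi (nrm b) (K i) T := by
    rw [Prod.fst_sum]
    funext T
    rw [Finset.sum_apply]
    refine Finset.sum_congr rfl fun i _ => ?_
    rw [Prod.smul_fst, Pi.smul_apply, zsmul_eq_mul]
  have h3 : (((∑ i, t i • ((Psi (nrm b) (K i), (D.rank (K i) : ℚ)) : (ℝ → ℂ) × ℚ)).2 : ℚ) : ℂ) =
      ∑ i, t i * (D.rank (K i) : ℂ) := by
    rw [Prod.snd_sum]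
    push_cast
    refine Finset.sum_congr rfl fun i _ => ?_
    rw [Prod.smul_snd, zsmul_eq_mul]
    push_cast
    rfl
  rw [h2, h3]
  have h4 : Tendsto (fun T : ℝ => (∑ i, t i * Psi (nrm b) (K i) T) / T -
      (∑ i, t i * primeSum b (K i) T) / T) atTop (𝓝 0) := by
    have h5 : Tendsto (fun T : ℝ => ∑ i, (t i : ℂ) * (Psi (nrm b) (K i) T / T -
        PrimeSum (nrm b) (K i) T / T)) atTop (𝓝 (∑ i : ι, (t i : ℂ) * 0)) :=
      tendsto_finsetSum _ fun i _ => (psi_tendsto (nrm b) (nrm_bound hb) (K i)).const_mul _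
    simp only [mul_zero, Finset.sum_const_zero] at h5
    refine h5.congr fun T => ?_
    simp only [primeSum_eq]
    rw [Finset.sum_div, Finset.sum_div, ← Finset.sum_sub_distrib]
    refine Finset.sum_congr rfl fun i _ => ?_
    ring
  constructor
  · intro h
    have h5 := h.sub h4
    rw [sub_zero] at h5
    refine h5.congr fun T => ?_
    ring
  · intro h
    have h5 := h.add h4
    rw [add_zero] at h5
    refine h5.congr fun T => ?_
    ring

lemma tateFun_iff (D : RankFunctor k) (K : Type) [Field K] [NumberField K] [Algebra k K] :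
    (tateFun hb D).f K = 0 ↔ Tate b D K := by
  have h := tateFun_comb hb D (fun _ : Fin 1 => K) (fun _ => 1)
  simp only [Fin.sum_univ_one, one_smul, Int.cast_one, one_mul] at h
  exact h

lemma tateFun_diff (D : RankFunctor k) (K L : Type) [Field K] [NumberField K] [Algebra k K]
    [Field L] [NumberField L] [Algebra k L] :
    (tateFun hb D).f K = (tateFun hb D).f L ↔ TateDifference b D K L := by
  let KK : Option (Fin 1) → Type := fun i => match i with
    | none => L
    | some _ => K
  let _ : ∀ i, Field (KK i) := fun i => match i with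
    | none => (inferInstance : Field L)
    | some _ => (inferInstance : Field K)
  have _ : ∀ i, NumberField (KK i) := fun i => match i with
    | none => (inferInstance : NumberField L)
    | some _ => (inferInstance : NumberField K)
  let _ : ∀ i, Algebra k (KK i) := fun i => match i with
    | none => (inferInstance : Algebra k L)
    | some _ => (inferInstance : Algebra k K)
  let t : Option (Fin 1) → ℤ := fun i => match i with
    | none => 1
    | some _ => -1
  have h := tateFun_comb hb D KK t
  rw [Fintype.sum_option, Fintype.sum_option, Fin.sum_univ_one, Fin.sum_univ_one] at h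
  have h1 : (fun T : ℝ => (∑ i, (t i : ℂ) * primeSum b (KK i) T) / T) =
      fun T : ℝ => (primeSum b L T - primeSum b K T) / T := by
    funext T
    rw [Fintype.sum_option, Fin.sum_univ_one]
    change (((1 : ℤ) : ℂ) * primeSum b L T + ((-1 : ℤ) : ℂ) * primeSum b K T) / (T : ℂ) = _
    push_cast
    ring
  rw [h1] at h
  have h2 : ((t none : ℤ) : ℂ) * (D.rank (KK none) : ℂ) +
      ((t (some 0) : ℤ) : ℂ) * (D.rank (KK (some 0)) : ℂ) = (D.rank L : ℂ) - (D.rank K : ℂ) := by
    change ((1 : ℤ) : ℂ) * (D.rank L : ℂ) + ((-1 : ℤ) : ℂ) * (D.rank K : ℂ) = _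
    push_cast
    ring
  rw [h2] at h
  have h3 : t none • (tateFun hb D).f (KK none) + t (some 0) • (tateFun hb D).f (KK (some 0)) =
      (tateFun hb D).f L - (tateFun hb D).f K := by
    change (1 : ℤ) • (tateFun hb D).f L + (-1 : ℤ) • (tateFun hb D).f K = _
    rw [one_smul, neg_smul, one_smul, sub_eq_add_neg]
  rw [h3, sub_eq_zero] at h
  exact eq_comm.trans h

end proof

open Pool.Agent.Run7.h508.BR in
/-- **Main theorem.** Let `k` be a number field, `b` a system of Frobenius traces with
`|b v n| ≤ C q_v ^ n` (on `H²` of a variety over `k`), `D` a functor with Galois descent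
(`K ↦ NS(V/K) ⊗ ℚ`) and `m > 0`.

* Suppose that the conjecture holds for a totally complex field `K₀ ⊇ k`, and for every real place
  `v` of `k` for a field `E ⊇ k` with real places, all over `v`. Then it holds for all number fields
  `K ⊇ k` if and only if `UnramifiedCase` holds.
* If `UnramifiedCase` holds, then for all totally complex `K₀ ⊇ k`, all `K_i ⊇ k` and integers `t_i`
  such that `∑ t_i r_v(K_i) = 0` for all real places `v` of `k`, the conjecture holds for
  `∑ t_i (K_i - K₀)`. -/
theorem result (k : Type) [Field k] [NumberField k] (b : HeightOneSpectrum (𝓞 k) → ℕ → ℂ) (C : ℝ)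
    (hb : ∀ (v : HeightOneSpectrum (𝓞 k)) (n : ℕ), ‖b v n‖ ≤ C * (Ideal.absNorm v.asIdeal : ℝ) ^ n)
    (D : RankFunctor k) (m : ℕ) (hm : m ≠ 0) :
    (∀ (K₀ : Type) [Field K₀] [NumberField K₀] [Algebra k K₀], IsTotallyComplex K₀ →
      Tate b D K₀ → (∀ v : k →+* ℂ, ComplexEmbedding.IsReal v →
        ∃ (E : Type) (_ : Field E) (_ : NumberField E) (_ : Algebra k E), 0 < realAbove v E ∧
          (∀ v', v' ≠ v → realAbove v' E = 0) ∧ Tate b D E) →
      ((∀ (K : Type) [Field K] [NumberField K] [Algebra k K], Tate b D K) ↔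
        UnramifiedCase b D m)) ∧
    (UnramifiedCase b D m → ∀ (K₀ : Type) [Field K₀] [NumberField K₀] [Algebra k K₀],
      IsTotallyComplex K₀ → ∀ (ι : Type) [Fintype ι] (K : ι → Type) [∀ i, Field (K i)]
      [∀ i, NumberField (K i)] [∀ i, Algebra k (K i)] (t : ι → ℤ),
      (∀ v : k →+* ℂ, ∑ i, t i * (realAbove v (K i) : ℤ) = 0) →
      Tendsto (fun T : ℝ => (∑ i, t i * (primeSum b (K i) T - primeSum b K₀ T)) / T) atTop
        (𝓝 (∑ i, t i * ((D.rank (K i) : ℂ) - (D.rank K₀ : ℂ))))) := by
  have hno : UnramifiedCase b D m → NoChange (tateFun hb D) m := by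
    intro h K L _ _ _ _ _ _ _ _ _ hK hp hu
    exact (tateFun_diff hb D K L).mpr (h K L hK hp (unrSplit_of hu))
  refine ⟨fun K₀ _ _ _ hK₀ h0 hreal => ⟨fun h => ?_, fun h K _ _ _ => ?_⟩,
    fun h K₀ _ _ _ hK₀ ι _ K _ _ _ t ht => ?_⟩
  · intro K L _ _ _ _ _ _ _ _ _ _ _ _
    rw [← tateFun_diff hb]
    rw [(tateFun_iff hb D K).mpr (h K), (tateFun_iff hb D L).mpr (h L)]
  · rw [← tateFun_iff hb]
    refine zero_of_real (tateFun hb D) hm (hno h) K₀ hK₀ ((tateFun_iff hb D K₀).mpr h0) ?_ K
    intro v hv
    obtain ⟨E, e1, e2, e3, h1, h2, h3⟩ := hreal v hv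
    exact ⟨E, e1, e2, e3, h1, h2, (tateFun_iff hb D E).mpr h3⟩
  · have key := real_formula_int (tateFun hb D) hm (hno h) K₀ hK₀ K t ht
    let KK : Option ι → Type := fun i => match i with
      | none => K₀
      | some i => K i
    let _ : ∀ i, Field (KK i) := fun i => match i with
      | none => (inferInstance : Field K₀)
      | some i => (inferInstance : Field (K i))
    have _ : ∀ i, NumberField (KK i) := fun i => match i with
      | none => (inferInstance : NumberField K₀)
      | some i => (inferInstance : NumberField (K i))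
    let _ : ∀ i, Algebra k (KK i) := fun i => match i with
      | none => (inferInstance : Algebra k K₀)
      | some i => (inferInstance : Algebra k (K i))
    let t' : Option ι → ℤ := fun i => match i with
      | none => -∑ i, t i
      | some i => t i
    have h1 := tateFun_comb hb D KK t'
    rw [Fintype.sum_option, Fintype.sum_option] at h1
    have h2 : t' none • (tateFun hb D).f (KK none) +
        ∑ i, t' (some i) • (tateFun hb D).f (KK (some i)) = 0 := by
      rw [← key]
      change (-∑ i, t i) • (tateFun hb D).f K₀ + ∑ i, t i • (tateFun hb D).f (K i) = _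
      rw [neg_smul, Finset.sum_smul, ← Finset.sum_neg_distrib, ← Finset.sum_add_distrib]
      refine Finset.sum_congr rfl fun i _ => ?_
      rw [smul_sub]
      abel
    have h3 := h1.mp h2
    have h4 : ((t' none : ℤ) : ℂ) * (D.rank (KK none) : ℂ) +
        ∑ i, ((t' (some i) : ℤ) : ℂ) * (D.rank (KK (some i)) : ℂ) =
        ∑ i, t i * ((D.rank (K i) : ℂ) - (D.rank K₀ : ℂ)) := by
      change ((-∑ i, t i : ℤ) : ℂ) * (D.rank K₀ : ℂ) + ∑ i, ((t i : ℤ) : ℂ) * (D.rank (K i) : ℂ) = _
      push_cast
      rw [neg_mul, Finset.sum_mul, ← Finset.sum_neg_distrib, ← Finset.sum_add_distrib]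
      refine Finset.sum_congr rfl fun i _ => ?_
      ring
    rw [h4] at h3
    refine h3.congr fun T => ?_
    congr 1
    rw [Fintype.sum_option]
    change ((-∑ i, t i : ℤ) : ℂ) * primeSum b K₀ T + ∑ i, ((t i : ℤ) : ℂ) * primeSum b (K i) T = _
    push_cast
    rw [neg_mul, Finset.sum_mul, ← Finset.sum_neg_distrib, ← Finset.sum_add_distrib]
    refine Finset.sum_congr rfl fun i _ => ?_
    ring

end Pool.Agent.Results.MP_4589ac_nt.UnramifiedExtensions
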